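import Pool.Agent.Run7.h789.FV.Fin

/-!
MP_70ba79_ag, Q1: degrees of the maps from curves to the complements of ZARISKI-GENERAL hypersurface
sections, at least `n + 2` of them, in an arbitrary projective variety of dimension `n`, and to all
the strata of the hypersurface arrangement: linear bounds `deg f ≤ A max (2 g - 2 + s, 0)` with an
empty exceptional set, and with a constant `A` which depends on the degrees only, and neither on the
curve, nor on the hypersurfaces, nor on the algebraically closed field.

Let `k₀` be a field of characteristic `0`, for instance `ℚ`, and let `V` be a closed subset of the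
projective space of dimension `M` over `k₀`, of dimension at most `n`; it may be singular or
reducible. Let `q ≥ n + 2`, and let `d_b ≥ 1`, `b < q`, be degrees such that at most `2 (q - n) - 2`
of them are `1`, or `n + m (n - m) ≤ m ∑ d_b` for `1 ≤ m ≤ n` and the sums over `q - m - 1` of the
`b`. For instance, `q ≥ n + 2` and at most two of the degrees are `1`; or `q ≥ 2 n + 1`, with any
degrees.

THEOREM. There are a nonzero polynomial `Φ`, with coefficients in `k₀`, in the coefficients of `q`
forms of degrees `d_b`, and natural numbers `A`, `μ` such that for all algebraically closed fields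
`k` which contain `k₀` and all function fields `L` of one variable over `k`:
(1) for all forms `F_b` of degrees `d_b` over `k` with `Φ (F) ≠ 0` and all points `x` of `V` over
`L`, that is, all morphisms to `V` from the smooth projective curve with function field `L`: `x` does
not lie on all the hypersurfaces `F_b = 0`, and
  `deg x ≤ A max (2 g (L) - 2 + N, 0)`,
where `N` is the number of the points `P` of the curve at which `x` meets one of the hypersurfaces
`F_b = 0` that do not contain `x`, with a multiplicity less than `μ`;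
(2) for moving hypersurfaces, that is for all forms `F_b` over `L` with `Φ (F) ≠ 0`, the same holds
with the sum of the heights of the coefficient vectors of the `F_b` added to the maximum.

In (1), let `C` be a set of indices, `X̄ = V ∩ {F_c = 0, c ∈ C}`, and `D` the union of the `F_b = 0`
with `b ∉ C`. A morphism from an affine curve, the complement of `s` points in a smooth projective
curve of genus `g`, to `X = X̄ ∖ D` is a point `x` for which `C` is the set of the `b` with
`F_b (x) = 0`, and `N ≤ s`; so `deg x ≤ A max (2 g - 2 + s, 0)`, for all these `X` and all curves.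
Points of the curve which are mapped to `D` with multiplicities at least `μ` are free. The condition
`Φ (F) ≠ 0` holds for most forms over `ℚ`: for countable `k`, such as the algebraic closure of `ℚ`,
there are no very general hypersurfaces, and the starting results for algebraically independent
coefficients do not apply.

`canDeg k L` is the degree `2 g (L) - 2` of the canonical divisors of `L` over `k`, and `Place k L`
is the set of the places, or points of the smooth projective curve with function field `L`. The
multiplicity with which `x` meets the hypersurface `F = 0` at a place `P` is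
`ord (F (x)) - min ord (F) - deg (F) min ord (x)`, with the least orders of the coefficients of `F`
and of the coordinates of `x`.
-/

set_option autoImplicit false

namespace Pool.Agent.Results.MP_70ba79_ag.GeneralComplements

open MvPolynomial FF
open Pool.Agent.W603.LV (canDeg)

/-- The closed subset of the projective space of dimension `M` given by the forms in `V` has
dimension at most `n`: there are `n + 1` linear forms without common zero on it. -/
def DimLE {k : Type} [Field k] {M : ℕ} (V : Set (MvPolynomial (Fin (M + 1)) k)) (n : ℕ) : Prop :=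
  ∃ ℓ : Fin (n + 1) → MvPolynomial (Fin (M + 1)) k, (∀ j, (ℓ j).IsHomogeneous 1) ∧
    ∀ y : Fin (M + 1) → AlgebraicClosure k,
      (∀ H ∈ V, aeval y H = 0) → (∀ j, aeval y (ℓ j) = 0) → y = 0

/-- The numerical condition on the degrees. -/
def Numeric (n : ℕ) {q : ℕ} (d : Fin q → ℕ) : Prop :=
  n + 2 ≤ q ∧ (∀ b, 1 ≤ d b) ∧ (((Finset.univ.filter fun b => d b = 1).card + 2 ≤ 2 * (q - n)) ∨
    ∀ m, 1 ≤ m → m ≤ n → ∀ B : Finset (Fin q), B.card + m + 1 = q →
      n + m * (n - m) ≤ m * ∑ b ∈ B, d b)

/-- The indices of the coefficients of `q` forms of degrees `d i` in `M + 1` variables. -/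
abbrev Index (M : ℕ) {q : ℕ} (d : Fin q → ℕ) : Type :=
  (i : Fin q) × {β : Fin (M + 1) →₀ ℕ // β.degree = d i}

/-- `F` is a family of forms of degrees `d i`, and `Φ (F) ≠ 0`. -/
def General {k L : Type} [Field k] [Field L] [Algebra k L] {M q : ℕ} {d : Fin q → ℕ}
    (Φ : MvPolynomial (Index M d) k) (F : Fin q → MvPolynomial (Fin (M + 1)) L) : Prop :=
  (∀ i, (F i).IsHomogeneous (d i)) ∧ aeval (fun s : Index M d => coeff s.2.1 (F s.1)) Φ ≠ 0

section

variable {k L : Type} [Field k] [Field L] [Algebra k L] {M q : ℕ}

/-- The family of the coefficients of a form of degree `e`. -/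
def coeffs (e : ℕ) (F : MvPolynomial (Fin (M + 1)) L) :
    {β : Fin (M + 1) →₀ ℕ // β.degree = e} → L :=
  fun β => coeff β.1 F

/-- The least order at the place `P` of the nonzero members of a family. -/
noncomputable def minOrd {ι : Type} (P : Place k L) (x : ι → L) : ℤ :=
  ⨅ j : {j // x j ≠ 0}, P.ord (x j)

variable (k) in
/-- The height of the point with the homogeneous coordinates `x`, relative to `L`: minus the sum over
all places of the least order of the coordinates. -/
noncomputable def height {ι : Type} (x : ι → L) : ℤ := - ∑ᶠ P : Place k L, minOrd P x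

/-- The multiplicity with which the point `x` meets the hypersurface `F = 0` of degree `e` at the
place `P`. -/
noncomputable def mult (P : Place k L) (e : ℕ) (F : MvPolynomial (Fin (M + 1)) L)
    (x : Fin (M + 1) → L) : ℤ :=
  P.ord (aeval x F) - minOrd P (coeffs e F) - e * minOrd P x

variable (k) in
/-- The places at which `x` meets one of the hypersurfaces `F b = 0` that do not contain `x`, with a
multiplicity less than `μ`. -/
def counted (μ : ℕ) (d : Fin q → ℕ) (F : Fin q → MvPolynomial (Fin (M + 1)) L)
    (x : Fin (M + 1) → L) : Set (Place k L) :=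
  {P | ∃ b, aeval x (F b) ≠ 0 ∧ 0 < mult P (d b) (F b) x ∧ mult P (d b) (F b) x < μ}

end

section Proof

open Pool.Agent.NH29.GN (Idx Mon fv val)
open Pool.Agent.Run7.h789.FV
open Pool.Agent.W603.LV Pool.Agent.W603.PV

theorem sum_eq {L : Type} [Field L] {M e : ℕ} {F : MvPolynomial (Fin (M + 1)) L}
    (hF : F.IsHomogeneous e) (x : Fin (M + 1) → L) :
    ∑ β : Mon M e, algebraMap L L (coeff β.1 F) * val x β.1 = aeval x F := by
  classical
  rw [aeval_def]
  exact (Pool.Agent.NH29.GN.Stc.eval₂_form (algebraMap L L) x hF).symm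

theorem fv_eq {L : Type} [Field L] {M q : ℕ} {d : Fin q → ℕ}
    {F : Fin q → MvPolynomial (Fin (M + 1)) L} (hF : ∀ i, (F i).IsHomogeneous (d i))
    (x : Fin (M + 1) → L) (b : Fin q) :
    fv (K := L) (L := L) (fun s : Idx M d => coeff s.2.1 (F s.1)) x b = aeval x (F b) :=
  sum_eq (hF b) x

theorem num2_of {n q : ℕ} {d : Fin q → ℕ} (h : Numeric n d) (C : Finset (Fin q))
    (hC : C ≠ Finset.univ) : Pool.Agent.NH29.GN.Num2 n d C := by
  obtain ⟨h1, h2, h3 | h3⟩ := h
  · exact Pool.Agent.NH29.GN.Fn.num_of_few h2 h1 h3 C hC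
  · exact Pool.Agent.NH29.GN.Fn.num_of_sum h1 h3 C hC

theorem counted_eq {k L : Type} [Field k] [Field L] [Algebra k L] {M q : ℕ} {d : Fin q → ℕ}
    {F : Fin q → MvPolynomial (Fin (M + 1)) L} (hF : ∀ i, (F i).IsHomogeneous (d i)) (μ : ℕ)
    (x : Fin (M + 1) → L) :
    low k μ (van (fun s : Idx M d => coeff s.2.1 (F s.1)) x)
      (fun s : Idx M d => coeff s.2.1 (F s.1)) x = counted k μ d F x := by
  classical
  ext P
  refine exists_congr fun b => ?_
  have h1 : mord P (fun β : Mon M (d b) => coeff β.1 (F b)) = minOrd P (coeffs (d b) (F b)) := rfl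
  have h2 : mord P x = minOrd P x := rfl
  simp only [van, Finset.mem_filter, Finset.mem_univ, true_and, fv_eq hF, mult, h1, h2]
  constructor
  · rintro ⟨h3, h4, h5⟩
    exact ⟨h3, by omega, by omega⟩
  · rintro ⟨h3, h4, h5⟩
    exact ⟨h3, by omega, by omega⟩

theorem main {k₀ : Type} [Field k₀] [CharZero k₀] (c₀ : k₀ → ℕ) {M n q : ℕ}
    {V : Set (MvPolynomial (Fin (M + 1)) k₀)} (hV : ∀ H ∈ V, ∃ e, H.IsHomogeneous e)
    (hdim : DimLE V n) {d : Fin q → ℕ} (hnum : Numeric n d) :
    ∃ Φ : MvPolynomial (Index M d) k₀, Φ ≠ 0 ∧ ∃ A μ : ℕ,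
      ∀ (k L : Type) [Field k] [Field L] [IsAlgClosed k] [CharZero k] [Algebra k L]
        [Algebra k₀ L] [IsFF k L] (w : ℕ), (∀ a : k₀, hgt k (algebraMap k₀ L a) ≤ c₀ a * w) →
      ∀ F : Fin q → MvPolynomial (Fin (M + 1)) L, General Φ F → ∀ x : Fin (M + 1) → L, x ≠ 0 →
        (∀ H ∈ V, aeval x H = 0) → (∃ b, aeval x (F b) ≠ 0) ∧
          height k x ≤ A * (max (canDeg k L + (counted k μ d F x).ncard) 0 + w +
            ∑ b, height k (coeffs (d b) (F b))) := by
  obtain ⟨ℓ, hℓ, hZ⟩ := hdim
  obtain ⟨Φ, h1, A, μ, h2⟩ := fv_all c₀ hV hℓ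
    (Pool.Agent.NH29.GN.Fn.noZero_of_points (K := AlgebraicClosure k₀) hZ)
    (le_trans (Nat.le_succ _) hnum.1) hnum.2.1 (num2_of hnum)
  refine ⟨Φ, h1, A, μ, fun k L _ _ _ _ _ _ _ w hw F hF x hx hxV => ?_⟩
  obtain ⟨ht0, h3⟩ := h2 k L w hw (fun s : Idx M d => coeff s.2.1 (F s.1)) hF.2
  obtain ⟨⟨b, hb⟩, h4⟩ := h3 x hx hxV
  refine ⟨⟨b, by rwa [fv_eq hF.1] at hb⟩, ?_⟩
  unfold rhsL at h4
  rw [counted_eq hF.1] at h4
  exact h4

end Proof

theorem height_const {k L : Type} [Field k] [Field L] [CharZero k] [IsAlgClosed k] [Algebra k L]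
    [IsFF k L] {ι : Type} [Fintype ι] {y : ι → k} (hy : y ≠ 0) :
    height k (fun j => algebraMap k L (y j)) ≤ 0 := by
  obtain ⟨a₀, ha₀⟩ := Function.ne_iff.1 hy
  have h1 : (fun j => algebraMap k L (y j)) a₀ ≠ 0 := fun h => ha₀ ((map_eq_zero _).1 h)
  refine (Pool.Agent.Run7.h789.FV.mht_le (k := k) (fun j => algebraMap k L (y j)) h1).trans
    (le_of_eq (Finset.sum_eq_zero fun a _ => ?_))
  rw [← map_div₀]
  exact Pool.Agent.Run7.h789.FV.hgt_const _

/-- Degrees of curves in Zariski-general complements. -/
theorem result {k₀ : Type} [Field k₀] [CharZero k₀] {M n q : ℕ} {d : Fin q → ℕ}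
    (hd : Numeric n d) (V : Set (MvPolynomial (Fin (M + 1)) k₀))
    (hV : ∀ H ∈ V, ∃ e, H.IsHomogeneous e) (hdim : DimLE V n) :
    ∃ Φ : MvPolynomial (Index M d) k₀, Φ ≠ 0 ∧ ∃ A μ : ℕ,
      ∀ (k L : Type) [Field k] [IsAlgClosed k] [Field L] [Algebra k₀ k] [Algebra k L]
        [Algebra k₀ L] [IsScalarTower k₀ k L] [IsFF k L],
        -- (1) forms over `k`
        (∀ F : Fin q → MvPolynomial (Fin (M + 1)) k, General Φ F →
          ∀ x : Fin (M + 1) → L, x ≠ 0 → (∀ H ∈ V, aeval x H = 0) →
            (∃ b, aeval x (F b) ≠ 0) ∧ height k x ≤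
              A * max (canDeg k L +
                (counted k μ d (fun b => map (algebraMap k L) (F b)) x).ncard) 0) ∧
        -- (2) forms over `L`
        ∀ F : Fin q → MvPolynomial (Fin (M + 1)) L, General Φ F →
          ∀ x : Fin (M + 1) → L, x ≠ 0 → (∀ H ∈ V, aeval x H = 0) →
            (∃ b, aeval x (F b) ≠ 0) ∧ height k x ≤
              A * (max (canDeg k L + (counted k μ d F x).ncard) 0 +
                ∑ b, height k (coeffs (d b) (F b))) := by
  obtain ⟨Φ, h1, A, μ, h2⟩ := main (fun _ => 0) hV hdim hd
  refine ⟨Φ, h1, A, μ, fun k L _ _ _ _ _ _ _ _ => ?_⟩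
  have hk : CharZero k := charZero_of_injective_algebraMap (algebraMap k₀ k).injective
  have h3 : ∀ F : Fin q → MvPolynomial (Fin (M + 1)) L, General Φ F →
      ∀ x : Fin (M + 1) → L, x ≠ 0 → (∀ H ∈ V, aeval x H = 0) →
        (∃ b, aeval x (F b) ≠ 0) ∧ height k x ≤
          A * (max (canDeg k L + (counted k μ d F x).ncard) 0 +
            ∑ b, height k (coeffs (d b) (F b))) := by
    intro F hF x hx hxV
    have h4 := h2 k L 0 (fun a => by rw [Pool.Agent.Run7.h789.FV.hgt_base (k := k)]; simp)
      F hF x hx hxV
    simpa using h4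
  refine ⟨fun F hF x hx hxV => ?_, h3⟩
  have hG : General Φ (fun b => map (algebraMap k L) (F b)) := by
    refine ⟨fun i => (hF.1 i).map _, ?_⟩
    have h4 : (fun s : Index M d => coeff s.2.1 (map (algebraMap k L) (F s.1))) =
        algebraMap k L ∘ fun s : Index M d => coeff s.2.1 (F s.1) := by
      funext s
      exact coeff_map _ _ _
    rw [h4, aeval_algebraMap_apply]
    exact fun h => hF.2 ((map_eq_zero _).1 h)
  obtain ⟨⟨b, hb⟩, h4⟩ := h3 _ hG x hx hxV
  refine ⟨⟨b, ?_⟩, h4.trans ?_⟩
  · rwa [aeval_map_algebraMap] at hb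
  · refine mul_le_mul_of_nonneg_left ?_ (Int.natCast_nonneg _)
    have h5 : ∑ b, height k (coeffs (d b) (map (algebraMap k L) (F b))) ≤ 0 := by
      refine Finset.sum_nonpos fun b _ => ?_
      have h6 : coeffs (d b) (map (algebraMap k L) (F b)) =
          fun j => algebraMap k L (coeffs (d b) (F b) j) := by
        funext β
        exact coeff_map _ _ _
      rw [h6]
      by_cases hy : coeffs (d b) (F b) = 0
      · have h7 : (fun j => algebraMap k L (coeffs (d b) (F b) j)) = fun _ => (0 : L) := by
          funext j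
          rw [hy, Pi.zero_apply, map_zero]
        rw [h7]
        unfold height
        rw [finsum_eq_zero_of_forall_eq_zero, neg_zero]
        intro P
        unfold minOrd
        have h8 : IsEmpty {j : {β : Fin (M + 1) →₀ ℕ // β.degree = d b} //
            (fun _ => (0 : L)) j ≠ 0} := ⟨fun j => j.2 rfl⟩
        rw [iInf_of_isEmpty, Int.csInf_empty]
      · have : Fintype {β : Fin (M + 1) →₀ ℕ // β.degree = d b} :=
          Pool.Agent.NH29.GN.fintype_mon M (d b)
        exact height_const hy
    linarith

end Pool.Agent.Results.MP_70ba79_ag.GeneralComplements
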