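import Pool.Agent.Run7.h830.CS.QDeg

/-!
# Degrees of curves in the quasi-finite covers of the moduli spaces of rational maps with a marked
periodic point

`k` is an algebraically closed field of characteristic zero. `V d n k` (`Pool/Agent/Q41/GT/Mod.lean`) is the
moduli space `M_d(n)` of the pairs `(f, z)` of a rational map `f` of degree `d` and a point `z` of exact
period `n` on the projective line over `k`, `n ≥ 3`: each pair is conjugate to exactly one pair `(f, ∞)` with
`f(∞) = 0`, `f(0) = 1`, and the coordinates of the point of `V d n k` are the coefficients of this `f`
(`Pool.Agent.Q41.GT.b_nfm`). It is an affine variety of pure dimension `2 d - 2`.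

`QFin d n I J U` (`Pool/Agent/Q41/GT/Stm6.lean`): `U` is the locally closed subset of affine space, with the
coordinates in `τ ⊕ Sg d`, given by the equations in `I` and the inequations in `J` (one of the polynomials in
`J` does not vanish), and the projection to the coordinates in `Sg d` is a morphism with finite fibres from
`U` to `V d n k`. Each variety with a quasi-finite morphism to `V d n`, for instance each affine one, is
isomorphic to such a `U` by Zariski's main theorem (take `J = {1}` if it is affine).

Theorem. For every `d ≥ 2` there is `B` such that for all `n ≥ B` and all such `U` there is a constant `C`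
such that for every smooth projective curve of genus `g` with the function field `L` and each nonconstant or
constant rational map from the curve to `U`, given by the coordinates `x` of a point of `U` over `L`, the
degree of the curve in the projective completion of the affine space (`pht k (hom1 x)`: the degree of the
pullback of `O(1)` to the smooth projective curve, that is, the degree of the image times the degree of the
map to the image) is at most

  `C max (2 g - 2, 0)`.

So for all affine `X` which are quasi-finite over `V d n` (they are of log general type, even of general type,
with all their subvarieties, `Pool.Agent.Q41.GT.c_qsub`), and for all nonconstant morphisms `f` from a smooth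
affine curve `C` to `X`, we have `deg f(C) ≤ C max (2 g - 2, 0) ≤ C max (χ(C), 0)`: Q1 holds with a linear
function `β`, with `Exc` empty, and the bound does not depend on the number of points at infinity.

The theorem is (A10) of the blueprint `Pool/Agent/Q41/GT/Stm7.lean` of helper41, which was not proved there;
for `U = V d n` it is the helper theorem `Pool.Agent.Q41.GT.c_vht`. Proof: noetherian induction on the closed
subsets of `U`: the coordinates of the generic point of an irreducible closed subset of `U` are algebraic over
the field generated by the coordinates of its image in `V d n` (`Pool.Agent.Q41.GT.c_fin`), so outside a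
smaller closed subset the heights of the coordinates of a point are bounded by a constant times the heights
of the coordinates of its image.
-/

set_option autoImplicit false

namespace Pool.Agent.Results.MP_70ba79_ag.ModuliOfMaps

open FF
open Pool.Agent.Q41.GT (Sg V QFin)
open Pool.Agent.W603.LV (canDeg)
open Pool.Agent.W603.PV (pht)
open Pool.Agent.Run7.h830.CS (hom1)

/-- **Degrees of curves** in the quasi-finite covers of the moduli spaces of rational maps with a marked
periodic point: at most a constant times `2 g - 2`, without exceptional set and independent of the points
at infinity. -/
theorem result (d : ℕ) (hd : 2 ≤ d) : ∃ B : ℕ, ∀ n : ℕ, B ≤ n → ∀ (k τ : Type) [Field k]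
    [IsAlgClosed k] [CharZero k] [Fintype τ] (I J : Set (MvPolynomial (τ ⊕ Sg d) k))
    (U : Set (τ ⊕ Sg d → k)), QFin d n I J U → ∀ (m : ℕ) (e : Fin m ≃ τ ⊕ Sg d),
    ∃ C : ℕ, ∀ (L : Type) [Field L] [Algebra k L] [IsFF k L] (x : τ ⊕ Sg d → L),
    (∀ F ∈ I, MvPolynomial.aeval x F = 0) → (∃ G ∈ J, MvPolynomial.aeval x G ≠ 0) →
    pht k (hom1 fun i => x (e i)) ≤ C * max (canDeg k L) 0 :=
  Pool.Agent.Run7.h830.CS.qdeg d hd

end Pool.Agent.Results.MP_70ba79_ag.ModuliOfMaps
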