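import Pool.Agent.Run7.h621.MP.Stm

/-!
MP_70ba79_ag, Q1: degrees of the maps from affine curves to generic and nearly generic pairs in
closed subsets of products of projective spaces.

Let `K` be an algebraically closed field of characteristic `0`, such as the complex numbers, and let
`k` be a field contained in `K`, such as the rational numbers, with algebraic closure `k'` in `K`.
Let `V` be a closed subset of a product of projective spaces of dimensions `n_i`, defined over `k'`,
of dimension at most `m`, whose projection to the factor `i` has dimension at most `m_i`. For `a` in
a finite set `A`, let `F_a` be a member of a linear system over `k'` of forms of degrees `d_{a,i}` in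
the coordinates `x_{i,0}, x_{i,1}, ...` of the factor `i`, spanned by the forms `P_{a,j}`, with the
coefficients `t_{a,j}`, and let `N` be the number of the ratios of the `t_{a,j}` to one of them, for
all `a` together: the dimension of the space of parameters. The ratios are supposed to generate a
field of transcendence degree at least `N - s` over `k`. For `s = 0`, this says that they are
algebraically independent: the `F_a` are generic. In general it says that the point of the space of
parameters is not in any closed subset over `k` of codimension more than `s`; the pairs can be
special, and singular.

Let `C` be a subset of `A`, and let `X` be the complete intersection `F_a = 0`, `a` in `C`, in `V`,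
without the divisor `D` given by `F_b = 0`, `b` not in `C`. It is affine if all `d_{b,i}` are
positive for some `b` not in `C`.

Let `Z` be a set of choices `c` of an index `c_i` for each factor such that each of the linear
systems contains all products of the monomials `x_{i,c_i} ^ (d_{a,i} - e_i) x_{i,j_i} ^ e_i` over the
`i`. If the linear systems contain all forms of the degrees `d_{a,i}`, then `Z` can be the set of all
choices. Let `Exc` be the closed set of the points such that for each `c` in `Z` some `x_{i,c_i}` is
`0`. It is empty if `Z` is the set of all choices.

Theorem. (1) For every nonconstant map `f` from a smooth projective curve of genus `g` to the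
closure of `X`, whose image is not contained in `D` or `Exc`,

  `∑_i (∑_a d_{a,i} + |C| - m - m_i - s) deg_i f ≤ 2 g - 2 + #f⁻¹(D)`,

where `deg_i f` is the degree of the pullback of `O(1)` from the factor `i`, and `#f⁻¹(D)` is the
number of the points that are mapped to `D`. So if `m + m_i + s + 1 ≤ ∑_a d_{a,i} + |C|` for all `i`,
then `deg f ≤ χ(C')` for every nonconstant morphism `f` from a smooth affine curve `C'` to `X` with
image not contained in `Exc`, where `deg` is the sum of the `deg_i`: the bound in Q1 holds with
`β(χ) = χ`, and there are no such maps from the affine line and from the multiplicative group.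

(2) If `m + m_i + s + 2 ≤ ∑_a d_{a,i} + |C| + w` for all `i` such that the projection of a closed
subvariety `Y` of dimension `w > 0` of `X` to the factor `i` is not constant, and `Y` is not contained
in `Exc`, then `Y` is of log general type. Under the condition in (1) this holds for `Y = X`
(if `X` is irreducible, of positive dimension, not contained in `Exc`) and for all `Y`.

Examples for generic forms (`s = 0`).
* If `V` is the product of the projective spaces, `m` is the sum of the `n_i`, and `m_i = n_i`. Then
  the condition in (1) is `n_i + ∑_l n_l + 1 ≤ ∑_a d_{a,i} + |C|` for all `i`.
* Let `M` be a matrix with `p` rows and `r + 1` columns of forms in `n + 1` variables, generic forms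
  of degree `δ_a` in the row `a`. The points `(x, y)` with `M(x) y = 0` are the complete intersection
  of `p` forms of degrees `δ_a`, `1` in the product of projective spaces of dimensions `n` and `r`;
  where the rank of `M(x)` is `r`, its projection to the determinantal variety where the rank is at
  most `r` is an isomorphism. So (1) bounds the degrees of curves on generic determinantal varieties
  (outside of smaller determinantal varieties), and on their complements of generic divisors.

The curve is given by its function field `L`, and the map by multihomogeneous coordinates `x` in `L`;
`canDeg K L` is `2 g - 2`, `pht K y` is the degree of the map to projective space with the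
coordinates `y`, and a point `Q` of the curve is mapped to `D` if
`∑_i d_{b,i} min_j ord_Q (x_{i,j}) < ord_Q (F_b (x))` for some `b` not in `C`. In (2), the subvariety
is given by its function field `L`, or a finite extension of it, and its generic point `x`, and the
same condition describes the prime divisors `Q` over its closure with centre in `D`.
-/

set_option autoImplicit false

namespace Pool.Agent.Results.MP_70ba79_ag.MultiprojectiveDegrees

open MvPolynomial FF Pool.Agent.W603.LV Pool.Agent.W603.PV Pool.Agent.W602.GT
  Pool.Agent.Run7.h621.MP.Stm

theorem result {k K : Type} [Field k] [Field K] [IsAlgClosed K] [CharZero K] [Algebra k K]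
    {ι : Type} [Fintype ι] [DecidableEq ι] {n : ι → ℕ} {m s : ℕ} {mi : ι → ℕ}
    -- a closed subset of a product of projective spaces, of dimension at most `m`, whose
    -- projection to the factor `i` has dimension at most `mi i`
    (V : Set (MvPolynomial (Coords n) (algebraicClosure k K))) (hV : SetDim V m mi)
    -- linear systems of forms of degrees `d a i`, which contain the products of the monomials in
    -- `x_{i, c i}` and another coordinate of the factor `i`, for `c ∈ Z`
    {A : Type} [Fintype A] (d : A → ι → ℕ) {J : A → Type} [∀ a, Fintype (J a)]
    (P : ∀ a, J a → MvPolynomial (Coords n) (algebraicClosure k K))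
    (hP : ∀ a j, IsForm (P a j) (d a)) (Z : Set (∀ i, Fin (n i + 1)))
    (hZ : ∀ c ∈ Z, ∀ a, HasMonomials (P a) (d a) c)
    -- the coefficients; their ratios generate a field of transcendence degree at least their
    -- number minus `s`
    (t : ∀ a, J a → K) (j0 : ∀ a, J a) (hgen : CodimLE k t j0 s)
    -- the forms; the equations are `F a = 0` for `a ∈ C`, the other forms give the boundary
    (F : A → MvPolynomial (Coords n) K)
    (hF : ∀ a, F a =
      ∑ j, MvPolynomial.C (t a j) * map (algebraMap (algebraicClosure k K) K) (P a j))
    (C : Finset A) :
    -- (1) the degrees of curves
    (∀ (L : Type) [Field L] [Algebra K L] [IsFF K L] (x : Coords n → L),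
      (∃ c ∈ Z, ∀ i, x ⟨i, c i⟩ ≠ 0) → OnPair V F C x →
      (∃ (i : ι) (j l : Fin (n i + 1)), Transcendental K (x ⟨i, j⟩ / x ⟨i, l⟩)) →
      (toBoundary C F d x).Finite ∧
      ∑ i, ((∑ a, (d a i : ℤ)) + C.card - m - mi i - s) * pht K (fun j => x ⟨i, j⟩) ≤
        canDeg K L + (toBoundary C F d x).ncard) ∧
    -- (2) closed subvarieties of dimension `w > 0`
    ∀ (L : Type) [Field L] [Algebra K L] (w : ℕ) (x : Coords n → L), 0 < w →
      Algebra.trdeg K L = w → (∃ c ∈ Z, ∀ i, x ⟨i, c i⟩ ≠ 0) →
      Algebra.IsAlgebraic (pointField K x) L → OnPair V F C x →
      (∀ i, ConstAt K x i ∨ m + mi i + s + 2 ≤ ∑ a, d a i + C.card + w) →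
      LogGeneralType K L w fun Q => Q ∈ toBoundary C F d x :=
  ⟨fun _ _ _ _ _ hx0 hx hnc => degrees hV hP hZ hgen hF C hx0 hx hnc,
    fun _ _ _ _ _ hw htr hx0 hxL hx hnum =>
      subvarieties hV hP hZ hgen hF C hw htr hx0 hxL hx hnum⟩

end Pool.Agent.Results.MP_70ba79_ag.MultiprojectiveDegrees
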