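import Pool.Agent.Run7.h34.GK.EffB

/-!
MP_70ba79_ag, Q1: degrees of curves in quasi-projective varieties (affine or not) with a morphism to a
stratum of a general hypersurface arrangement in `P^n` of total degree at least `2 n + 1`, for instance
to the complement of a general hypersurface, which is highly ramified over `n + 1` hyperplanes.

`CI n d` (`Pool/Agent/TH182/VD/Main.lean`): the indices `(i, α)`, `|α| = d i`, of the coefficients of
the forms `F_i` of degree `d i` in `n + 1` variables. `Form n`: the linear forms on `ℂ^(n+1)`.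
`formK φ b` is the value of the linear form `φ` at the vector `b` over a field which contains `ℂ`.
`pord P b` is the minimum of the orders of the coordinates of `b` at the place `P`, `pht ℂ b` the
height of `b`, that is the degree of the pull-back of `O(1)` to the curve with function field `L`, and
`euler S = 2 g - 2 + #S` (`Pool/Agent/W603/PV/Hgt.lean`, `W603/LV/Defs.lean`).
`RamifiedPlace m ℓ b P` (`Pool/Agent/Run7/h34/GK/Main.lean`): if `b` meets at `P` some of the
hyperplanes `ℓ i = 0` which do not contain `b`, then it meets one of these with multiplicity at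
least `m`. `BiSet N n`: the closed subsets of `P^N × P^n`. `withHyp Δ Q`
(`Pool/Agent/Run7/h34/GK/Cov.lean`): the union of `Δ` with the preimage of the hypersurface `Q = 0` of
`P^n`. `RamifiedOff X D ℓ m` (`Pool/Agent/TH152/HY/QDefs.lean`): the projection from `X - D` to `P^n` is
ramified to order at least `m` over the hyperplanes `ℓ i = 0`. `LogGeneralType` (`W602/GT`).
`UniformOverPn X D G R`, `UniformOff X D G R` (`Pool/Agent/TH152/DS/LangDefs.lean`): for all closed
subvarieties `Z` of `X - D` of positive dimension which are not contained in `G = 0`,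
`R (K_Z + D_Z) - H` is effective, with `H = O(0, 1)`, and with `H = O(1, 1)`, which is ample.
`CurvesBounded X D G R₀ R` (`Pool/Agent/TH152/DS/Affine.lean`): for all morphisms `f` from smooth
curves `C` to `X - D`, not constant and not into `G = 0`, `deg f^* O(0, 1) ≤ R₀ (2 g - 2 + s)` and
`deg f^* O(1, 1) ≤ R (2 g - 2 + s)`, where `s` is the number of the punctures of `C`.
-/

set_option autoImplicit false

namespace Pool.Agent.Results.MP_70ba79_ag.OrbifoldDegrees

open FF MvPolynomial Run7.h34.GK
open Pool.Agent.TH182.VD (CI)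
open Pool.Agent.W602.Cov Pool.Agent.W602.Cov.Cover Pool.Agent.W602.Cov.R Pool.Agent.TH152.HY Pool.Agent.W602.GT
open Pool.Agent.TH152.DS (CurvesBounded UniformOverPn UniformOff)
open Pool.Agent.W603.LV (euler)
open Pool.Agent.W603.PV (pord pht)

/-- For all `n` and all degrees `d i ≥ 1`, `i < q`, there are `m`, `R₀ > 0` and a polynomial `Φ ≠ 0` in
the coefficients of `q` forms `F_i` of the degrees `d i` in `n + 1` variables such that the following
holds for all forms at which `Φ` does not vanish, for all sets `Z` of indices with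
`2 n + 1 ≤ ∑ d i + #Z` and for all systems of `n + 1` hyperplanes `ℓ j = 0` of `P^n` without common
points. Let `U` be the stratum of the points of `P^n` such that `F_i = 0` for `i ∈ Z` and `F_i ≠ 0`
for `i ∉ Z`.

(1) Let `C` be a smooth curve with function field `L` and places at infinity `S`, and `f` a nonconstant
morphism from `C` to `U`, with coordinates `b`. If `f` is ramified to order at least `m` over the
hyperplanes at all points of `C` outside a finite set `T`, then
`deg f ≤ R₀ (2 g - 2 + #S + #T)`.

(2) Let `Y = X - D` be an irreducible quasi-projective variety of positive dimension with a morphism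
to `U` which is generically finite over its image, ramified to order at least `m` over the
hyperplanes, and whose image is not contained in a hyperplane; `X` and `Δ` are closed in
`P^N × P^n`, and `D` is the union of `Δ` and the preimage of the hypersurfaces `F_i = 0`, `i ∉ Z`.
Then `Y` is of log general type, and there is a proper closed subset `G = 0` of `Y` such that the
degrees of all curves in `Y` which are not contained in `G = 0` are bounded by a constant times their
Euler characteristic `2 g - 2 + s`; the constant is `R₀` for the degrees over `P^n`. Moreover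
`R (K_W + D_W) - H` is effective for all closed subvarieties `W` of `Y` of positive dimension which are
not contained in `G = 0`, for some `R`, and `R₀ (K_W + D_W) - H'`, with `H'` the pull-back of the
hyperplane class of `P^n`. -/
theorem result (n q : ℕ) (d : Fin q → ℕ) (hd : ∀ i, 1 ≤ d i) :
    ∃ (m R₀ : ℕ) (Φ : MvPolynomial (CI n d) ℂ), 0 < R₀ ∧ Φ ≠ 0 ∧
      ∀ F : Fin q → MvPolynomial (Fin (n + 1)) ℂ, (∀ i, (F i).IsHomogeneous (d i)) →
        eval (fun x : CI n d => coeff x.2.1 (F x.1)) Φ ≠ 0 →
      ∀ Z : Finset (Fin q), 2 * n + 1 ≤ ∑ i, d i + Z.card →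
      ∀ ℓ : Fin (n + 1) → Form n, (∀ x, (∀ j, ℓ j x = 0) → x = 0) →
        (∀ (L : Type) [Field L] [Algebra ℂ L] [IsFF ℂ L] (S T : Finset (Place ℂ L))
          (b : Fin (n + 1) → L), (∃ i j, b j ≠ 0 ∧ b i / b j ∉ Set.range (algebraMap ℂ L)) →
          (∀ i ∈ Z, aeval b (F i) = 0) → (∀ i ∉ Z, aeval b (F i) ≠ 0 ∧
            ∀ P ∉ S, P.ord (aeval b (F i)) = d i * pord P b) →
          (∀ P ∉ S, P ∉ T → RamifiedPlace m ℓ b P) →
          pht ℂ b ≤ R₀ * (euler S + T.card)) ∧
        ∀ (N : ℕ) (X Δ : BiSet N n), (∀ u v, X.Mem u v → ∀ i ∈ Z, eval v (F i) = 0) →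
          RamifiedOff X (withHyp Δ (∏ i ∈ Finset.univ \ Z, F i)) ℓ m →
          ∀ (K : Type) [Field K] [Algebra ℂ K] (a : Fin (N + 1) → K) (b : Fin (n + 1) → K)
            (r : ℕ), X.FunctionField K a b →
            ¬ (withHyp Δ (∏ i ∈ Finset.univ \ Z, F i)).Mem a b → Algebra.trdeg ℂ K = r → 0 < r →
            Algebra.IsAlgebraic
              (IntermediateField.adjoin ℂ {f : K | ∃ i j, b j ≠ 0 ∧ f = b i / b j}) K →
            (∀ j, formK (ℓ j) b ≠ 0) →
            LogGeneralType ℂ K r (CentreIn (withHyp Δ (∏ i ∈ Finset.univ \ Z, F i)) a b) ∧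
            ∃ (G : BiPoly N n) (e e' : ℕ), BiHom G e e' ∧
              (∃ u v, QMem X (withHyp Δ (∏ i ∈ Finset.univ \ Z, F i)) u v ∧
                eval (Sum.elim u v) G ≠ 0) ∧
              UniformOverPn X (withHyp Δ (∏ i ∈ Finset.univ \ Z, F i)) G R₀ ∧
              ∃ R : ℕ, 0 < R ∧
                UniformOff X (withHyp Δ (∏ i ∈ Finset.univ \ Z, F i)) G R ∧
                CurvesBounded X (withHyp Δ (∏ i ∈ Finset.univ \ Z, F i)) G R₀ R := by
  classical
  obtain ⟨Φ, h1, h2⟩ := exists_phi n q d
  refine ⟨mlog n q d, RR (nj n q (dd d)) 2, Φ, RR_pos _ _, h1, fun F hF hΦ Z hZ ℓ hℓ => ?_⟩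
  have hGm := h2 F hF hΦ Z hZ
  have hind := lin_of hℓ
  refine ⟨fun L _ _ _ S T b hb hbZ hbZ' hr => ?_, fun N X Δ hX hram K _ _ a b r hK hoff htr hr
    halg hlb => ⟨cov_lgt (dd_pos hd) hF (dd_mul d) hGm hind hX hram hK.mem hoff hlb halg htr hr,
      cov_bound (dd_pos hd) hF (dd_mul d) hGm hind hX hram hK halg hlb hoff⟩⟩
  have h3 := curve_bound (dd_pos hd) hF (dd_mul d) hGm hind hb hbZ (fun i hi => (hbZ' i hi).1)
    (S ∪ T) (fun P hP => hr P (fun h => hP (Finset.mem_union_left _ h))
      fun h => hP (Finset.mem_union_right _ h))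
    fun P hP i hi => (hbZ' i hi).2 P fun h => hP (Finset.mem_union_left _ h)
  refine h3.trans (mul_le_mul_of_nonneg_left ?_ (Nat.cast_nonneg _))
  unfold euler
  have h4 : ((S ∪ T).card : ℤ) ≤ S.card + T.card := by exact_mod_cast Finset.card_union_le S T
  linarith

end Pool.Agent.Results.MP_70ba79_ag.OrbifoldDegrees
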